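import Pool.Agent.U365.POW.E
import Pool.Agent.Results.MP_0a5adf_nt.MultiplicativeValues

/-!
# Excursions of the `3x+1` map near `s(m)`, `m - φ(m)` and `α m + β f(m)`

Let `s(m)` be the sum of the proper divisors of `m`, let `G` be any function with steps bounded below by a positive constant and
growth at most `v ^ d`, for example `G v = v`, let `0 < v ≤ 1`, `δ > 0`, `κ ≥ 0` and `e = d (1 - min v (0.06 δ)) + κ < 1`. There is an
absolute constant `B` such that for almost all `m` with a divisor `≥ m ^ (e + ρ)` which is a prime or the product of two different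
primes, and hence for a set of `m` of lower density at least `1 - e`, EVERY integer `n` with `|n - G (s(m))| ≤ s(m) ^ κ` reaches a
value `≤ n ^ δ` within `B log n` steps and stays `≤ n ^ (1+v)` until then; and the same holds for `m - φ(m)`. The same is proved for
the values `α m + β f(m)` of multiplicative functions with `f p = p + c` at the primes, uniformly in `|α|, |β| ≤ N ^ δ'` and with a
power saving in the number of the exceptional `m`.

Proof. The number of the exceptional `n` has a power saving (starting file `MultiplicativeValues`). Let `m = k u p` with large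
primes `p ≠ u`. Then `g = A u p + B (u + p) + B c`, `A = α k + β f(k)`, `B = β c f(k)`, and so
`(A u + B) (A p + B) = A g + B² - A B c`: for given `g`, `k`, `α`, `β` there are only `N^o(1)` possibilities for `p` and `u`.
-/

set_option autoImplicit false

namespace Pool.Agent.Results.MP_0a5adf_nt.AliquotValues

open Finset
open Pool.Agent.U365.POW (Values Dens NearAll values_of values_mono dens_mono)
open Pool.Agent.N733.TG (Expanding)
open Pool.Agent.Results.MP_0a5adf_nt.MultiplicativeValues (DescendsBelow law mono)

/-- EVERY integer `n ≥ 1` with `|n - G g| ≤ g ^ κ` reaches a value `≤ n ^ δ` within `B log n` steps and stays `≤ n ^ (1 + v)` until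
then. -/
def Near (B v δ : ℝ) (G : ℕ → ℝ) (κ : ℝ) (g : ℕ) : Prop :=
  ∀ n : ℕ, 1 ≤ n → |(n : ℝ) - G g| ≤ (g : ℝ) ^ κ → DescendsBelow B ((n : ℝ) ^ δ) ((n : ℝ) ^ (1 + v)) n

/-- **Theorem.** There is `B` such that for all `G` with steps `≥ const > 0` and growth at most `v^d`, all `0 < v ≤ 1`, `δ > 0`,
`κ ≥ 0` with `e = d (1 - min v (0.06 δ)) + κ < 1`: for every `ρ > 0` the property `Near` holds for the values of similar functions as
the aliquot sum (`Values`: for `s(m)`, for `m - φ(m)` and for all `α m + β f(m)`, for almost all the `m` with a divisor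
`≥ m ^ (e + ρ)` which is a prime or the product of two different primes), and it holds for `s(m)` and `m - φ(m)` for a set of `m` of
lower density at least `1 - e`. -/
theorem result : ∃ B : ℝ, 0 < B ∧ ∀ (G : ℕ → ℝ) (d : ℝ), Expanding G d → ∀ v δ κ : ℝ, 0 < v → v ≤ 1 → 0 < δ → 0 ≤ κ →
        d * (1 - min v (6 / 100 * δ)) + κ < 1 →
    (∀ ρ : ℝ, 0 < ρ → Values (d * (1 - min v (6 / 100 * δ)) + κ + ρ) (Near B v δ G κ)) ∧
      Dens (1 - (d * (1 - min v (6 / 100 * δ)) + κ)) (Near B v δ G κ) := by
  obtain ⟨B, C, hB, hC, law⟩ := law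
  refine ⟨B, hB, fun G d hG v δ κ hv hv1 hδ hκ h1 => ?_⟩
  exact values_of (fun n : ℕ => 1 ≤ n) (fun n => DescendsBelow B ((n : ℝ) ^ δ) ((n : ℝ) ^ (1 + v)) n)
      (fun n : ℕ => (n : ℝ)) hG (s := 1 - min v (6 / 100 * δ)) (κ := κ) (by linarith [min_le_left v (6 / 100 * δ)]) hκ h1
      (Pool.Agent.N481.MV.two_scale (Bad := fun y V n => ¬ DescendsBelow B y V n) hv hv1 hδ hC.le
        (fun y y' V V' n hy hV h h' => h (mono hy hV h')) (fun x y V hx hy hV => law x y V hx hy hV))

end Pool.Agent.Results.MP_0a5adf_nt.AliquotValues
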