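import Pool.Agent.U762.EE.Asm

set_option autoImplicit false

/-!
# Maximum excursions of the randomly perturbed 3x+1 map

The fixed accelerated 3x+1 map `T` (on all integers) is perturbed: `T_ω(x) = T(x) + ω x`, where the `ω x`, `x ∈ ℤ`, are
independent with one law on a bounded set of integers, chosen once for all.  The law has a uniform component: it gives
mass at least `ε / 2^K` to each of `0, 1, …, 2^K - 1`; for instance, the value is not changed with probability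
`1 - ε` and otherwise a uniform element of `{0, …, 2^K - 1}` is added.

1. If `ε > 1/3`, then for every `δ > 0` and suitable `K` almost surely all orbits satisfy
   `sup_i |T_ω^i(x)| ≤ C (2 + |x|)^(2+δ)`: the exponent `2` of the conjecture on the maximum excursion.
2. For every `ε > 0`: the same with every exponent `s > 1 + 1/θ`, `0 < θ < 1`, `(1-ε) (3/2)^θ < 1`.

Proof: the potential `|x|^θ` of the annealed chain decays exponentially (the mean of `(1/2)^θ` and `(3/2)^θ` is `< 1`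
exactly for `0 < θ < 1`), so the probability to reach `Y` from `x` before a repetition or a small value is
`O((|x|/Y)^θ)`; Borel-Cantelli.
-/

namespace Pool.Agent.Results.MP_0a5adf_nt.ExcursionsOfPerturbedMap

open MeasureTheory Filter Finset

/-- The accelerated 3x+1 map on the integers: `x/2` for even `x`, `(3x+1)/2` for odd `x`. -/
def col (x : ℤ) : ℤ := if x % 2 = 0 then x / 2 else (3 * x + 1) / 2

/-- The perturbed map. -/
def pert (ω : ℤ → ℤ) (x : ℤ) : ℤ := col x + ω x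

/-- The law of one perturbation is carried by the integers of modulus at most `B`, and has mass at least `ε / 2^K`
at each of `0, 1, …, 2^K - 1`. -/
structure Law (ε : ℝ) (K B : ℕ) (μ : Measure ℤ) : Prop where
  bdd : μ {u : ℤ | (B : ℤ) < |u|} = 0
  mass : ∀ u : ℤ, 0 ≤ u → u < (2 : ℤ) ^ K → ε / (2 : ℝ) ^ K ≤ μ.real {u}

/-- All terms of all orbits of the perturbed map are at most `C (2 + |x|)^s` in modulus, `x` the starting value. -/
def Excursions (s : ℝ) (ω : ℤ → ℤ) : Prop :=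
  ∃ C : ℝ, ∀ (x : ℤ) (i : ℕ), |(((pert ω)^[i] x : ℤ) : ℝ)| ≤ C * (2 + |(x : ℝ)|) ^ s

theorem general (ε θ s : ℝ) (he0 : 0 < ε) (he1 : ε < 1) (h0 : 0 < θ) (h1 : θ < 1)
    (hmax : (1 - ε) * (3 / 2 : ℝ) ^ θ < 1) (hs : 1 + 1 / θ < s) : ∃ K : ℕ, ∀ (B : ℕ) (μ : Measure ℤ)
      [IsProbabilityMeasure μ], Law ε K B μ → ∀ᵐ ω ∂(Measure.infinitePi fun _ : ℤ => μ), Excursions s ω := by
  obtain ⟨K, hK⟩ := Pool.Agent.U762.EE.exc3 θ ε s h0 h1 he0 he1 hmax hs
  refine ⟨K, fun B μ hμ hlaw => ?_⟩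
  exact hK B μ hlaw.bdd hlaw.mass

theorem result :
    (∀ ε δ : ℝ, 1 / 3 < ε → ε < 1 → 0 < δ → ∃ K : ℕ, ∀ (B : ℕ) (μ : Measure ℤ) [IsProbabilityMeasure μ],
      Law ε K B μ → ∀ᵐ ω ∂(Measure.infinitePi fun _ : ℤ => μ), Excursions (2 + δ) ω) ∧
    (∀ ε θ s : ℝ, 0 < ε → ε < 1 → 0 < θ → θ < 1 → (1 - ε) * (3 / 2 : ℝ) ^ θ < 1 → 1 + 1 / θ < s →
      ∃ K : ℕ, ∀ (B : ℕ) (μ : Measure ℤ) [IsProbabilityMeasure μ],
        Law ε K B μ → ∀ᵐ ω ∂(Measure.infinitePi fun _ : ℤ => μ), Excursions s ω) := by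
  refine ⟨fun ε δ h0 h1 hδ => ?_, fun ε θ s he0 he1 h0 h1 hmax hs => general ε θ s he0 he1 h0 h1 hmax hs⟩
  have hd : 0 < 1 + δ := by linarith
  have ha : 1 / (1 + δ) < 1 := by rw [div_lt_one hd]; linarith
  have hb : 0 < 1 / (1 + δ) := by positivity
  refine general ε ((1 + 1 / (1 + δ)) / 2) (2 + δ) (by linarith) h1 (by linarith) (by linarith) ?_ ?_
  · have h2 : (3 / 2 : ℝ) ^ ((1 + 1 / (1 + δ)) / 2) ≤ (3 / 2 : ℝ) ^ (1 : ℝ) :=
      Real.rpow_le_rpow_of_exponent_le (by norm_num) (by linarith)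
    rw [Real.rpow_one] at h2
    have h3 : (1 - ε) * (3 / 2 : ℝ) ^ ((1 + 1 / (1 + δ)) / 2) ≤ (1 - ε) * (3 / 2) :=
      mul_le_mul_of_nonneg_left h2 (by linarith)
    linarith
  · have h4 : 1 / (1 + δ) < (1 + 1 / (1 + δ)) / 2 := by linarith
    have h5 : 1 / ((1 + 1 / (1 + δ)) / 2) < 1 / (1 / (1 + δ)) := one_div_lt_one_div_of_lt hb h4
    rw [one_div_one_div] at h5
    linarith

end Pool.Agent.Results.MP_0a5adf_nt.ExcursionsOfPerturbedMap
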