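import Pool.Agent.U59.HX.C

/-!
# Maximum excursions of the `3x+1` map and hitting densities

Let `D a` be the natural density of the positive integers whose trajectory contains `a`. Up to powers `D a` is
the inverse of the least integer whose trajectory contains `a`. Hence the maximum excursion `t(n)` is bounded by
a power of `n` if and only if `D a` is bounded by a negative power of `a`.
-/

set_option autoImplicit false

namespace Pool.Agent.Results.MP_0a5adf_nt.HittingDensities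

open Filter Topology

/-- the accelerated `3x+1` map -/
def T (n : ℕ) : ℕ := if n % 2 = 0 then n / 2 else (3 * n + 1) / 2

/-- the trajectory of `n` -/
def traj (n : ℕ) : Set ℕ := {b : ℕ | ∃ k : ℕ, T^[k] n = b}

/-- `S` has natural density `δ` among the positive integers -/
def HasDensity (S : Set ℕ) (δ : ℝ) : Prop :=
  Tendsto (fun N : ℕ => ({n : ℕ | 1 ≤ n ∧ n ≤ N ∧ n ∈ S}.ncard : ℝ) / N) atTop (𝓝 δ)

/-- `t(n) ≤ B`, where `t(n)` is the maximum excursion of `n`, the supremum of its trajectory -/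
def ExcursionLe (n : ℕ) (B : ℝ) : Prop := ∀ b ∈ traj n, (b : ℝ) ≤ B

/-- **Theorem.** The integers whose trajectory contains `a` have a natural density `D a`, and there are
constants `κ > 0` and `C` such that for all positive integers `a`:
(1) `D a ≤ C m ^ (-0.06)` if `a` is in no trajectory of a positive integer smaller than `m`, and `D a ≥ κ / n` if
`a` is in the trajectory of `n` and prime to `3`; `D a = 0` if `a` is divisible by `3`;
(2) if `t(n) ≤ A` for all `n ≤ x` then `D a ≤ C x ^ (-0.06)` for all `a > A`; if `D a < κ / x` for all `a > A`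
then `t(n) ≤ max(A, n)` for all `n ≤ x`;
(3) if `t(n) = O(n ^ γ)` then `D a = O(a ^ (-0.06 / γ))`, for all `γ > 0`; if `D a = O(a ^ (-β))` then
`t(n) = O(n ^ (1 / β))`, for `0 < β ≤ 1`. In particular `D a = O(a ^ (-1/2))` implies that `t(n) = O(n ^ 2)`, and
this implies that `D a = O(a ^ (-0.03))`;
(4) `D (3 ^ k - 1) ≥ κ / 2 ^ k`, so that `D a = O(a ^ (-β))` fails for all `β > log 2 / log 3 = 0.63...`;
(5) `t(n)` is finite for all `n` if and only if `D a → 0`. -/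
theorem result : ∃ (D : ℕ → ℝ) (κ C : ℝ), 0 < κ ∧ 0 < C ∧ (∀ a, HasDensity {n | a ∈ traj n} (D a)) ∧
    (∀ (a : ℕ) (m : ℝ), 1 ≤ a → 1 ≤ m → (∀ z : ℕ, 1 ≤ z → a ∈ traj z → m ≤ z) →
      D a ≤ C * m ^ (-(6 / 100) : ℝ)) ∧
    (∀ a n : ℕ, ¬ 3 ∣ a → 1 ≤ n → a ∈ traj n → κ / n ≤ D a) ∧
    (∀ a : ℕ, 1 ≤ a → 3 ∣ a → D a = 0) ∧
    (∀ x A : ℝ, 1 ≤ x → (∀ n : ℕ, 1 ≤ n → (n : ℝ) ≤ x → ExcursionLe n A) →
      ∀ a : ℕ, 1 ≤ a → A < a → D a ≤ C * x ^ (-(6 / 100) : ℝ)) ∧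
    (∀ x A : ℝ, (∀ a : ℕ, 1 ≤ a → A < a → D a < κ / x) →
      ∀ n : ℕ, 1 ≤ n → (n : ℝ) ≤ x → ExcursionLe n (max A n)) ∧
    (∀ γ : ℝ, 0 < γ → (∃ K : ℝ, ∀ n : ℕ, 1 ≤ n → ExcursionLe n (K * (n : ℝ) ^ γ)) →
      ∃ K : ℝ, ∀ a : ℕ, 1 ≤ a → D a ≤ K * (a : ℝ) ^ (-(6 / 100) / γ : ℝ)) ∧
    (∀ β : ℝ, 0 < β → β ≤ 1 → (∃ K : ℝ, ∀ a : ℕ, 1 ≤ a → D a ≤ K * (a : ℝ) ^ (-β)) →
      ∃ K : ℝ, ∀ n : ℕ, 1 ≤ n → ExcursionLe n (K * (n : ℝ) ^ (1 / β))) ∧
    ((∃ K : ℝ, ∀ a : ℕ, 1 ≤ a → D a ≤ K * (a : ℝ) ^ (-(1 / 2) : ℝ)) →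
      ∃ K : ℝ, ∀ n : ℕ, 1 ≤ n → ExcursionLe n (K * (n : ℝ) ^ 2)) ∧
    ((∃ K : ℝ, ∀ n : ℕ, 1 ≤ n → ExcursionLe n (K * (n : ℝ) ^ 2)) →
      ∃ K : ℝ, ∀ a : ℕ, 1 ≤ a → D a ≤ K * (a : ℝ) ^ (-(3 / 100) : ℝ)) ∧
    (∀ k : ℕ, 1 ≤ k → κ / 2 ^ k ≤ D (3 ^ k - 1)) ∧
    (∀ β : ℝ, Real.log 2 / Real.log 3 < β → ¬ ∃ K : ℝ, ∀ a : ℕ, 1 ≤ a → D a ≤ K * (a : ℝ) ^ (-β)) ∧
    ((∀ n : ℕ, 1 ≤ n → ∃ B : ℝ, ExcursionLe n B) ↔ Tendsto D atTop (𝓝 0)) := by
  classical
  obtain ⟨D, κ, C, hκ, hC, hD, h01, hup, hlow, h3, hA, hB, hG, hH⟩ := Pool.Agent.U59.HX.mainN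
  have hC0 : 0 < C := by linarith
  have hG' : ∀ γ : ℝ, 0 < γ → (∃ K : ℝ, ∀ n : ℕ, 1 ≤ n → ExcursionLe n (K * (n : ℝ) ^ γ)) →
      ∃ K : ℝ, ∀ a : ℕ, 1 ≤ a → D a ≤ K * (a : ℝ) ^ (-(6 / 100) / γ : ℝ) := by
    rintro γ hγ ⟨K, hK⟩
    exact hG γ K hγ hK
  have hH' : ∀ β : ℝ, 0 < β → β ≤ 1 → (∃ K : ℝ, ∀ a : ℕ, 1 ≤ a → D a ≤ K * (a : ℝ) ^ (-β)) →
      ∃ K : ℝ, ∀ n : ℕ, 1 ≤ n → ExcursionLe n (K * (n : ℝ) ^ (1 / β)) := by
    rintro β hβ hβ1 ⟨K, hK⟩
    exact hH β K hβ hβ1 hK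
  have hM : ∀ k : ℕ, 1 ≤ k → κ / 2 ^ k ≤ D (3 ^ k - 1) := by
    intro k hk
    have h2k : 2 ≤ 2 ^ k := by
      calc 2 = 2 ^ 1 := by norm_num
        _ ≤ 2 ^ k := Nat.pow_le_pow_right (by norm_num) hk
    have h3k : 3 ∣ 3 ^ k := dvd_pow_self 3 (by omega)
    have h1 := hlow (3 ^ k - 1) (2 ^ k - 1) (by
      have : 1 ≤ 3 ^ k := Nat.one_le_iff_ne_zero.2 (by positivity)
      omega) (by omega) ⟨k, Pool.Agent.U59.HX.mersenne k⟩
    refine le_trans ?_ h1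
    have hpos : (0 : ℝ) < ((2 ^ k - 1 : ℕ) : ℝ) := by exact_mod_cast (by omega : 0 < 2 ^ k - 1)
    apply div_le_div_of_nonneg_left hκ.le hpos
    have : ((2 ^ k - 1 : ℕ) : ℝ) ≤ ((2 ^ k : ℕ) : ℝ) := by exact_mod_cast Nat.sub_le _ _
    simpa using this
  refine ⟨D, κ, C, hκ, hC0, hD, hup, hlow, h3, hA, hB, hG', hH', ?_, ?_, hM, ?_, ?_, ?_⟩
  · intro h
    obtain ⟨K, hK⟩ := hH' (1 / 2) (by norm_num) (by norm_num) h
    refine ⟨K, fun n hn b hb => ?_⟩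
    have := hK n hn b hb
    have e : (1 : ℝ) / (1 / 2) = 2 := by norm_num
    rw [e] at this
    exact_mod_cast this
  · rintro ⟨K, hK⟩
    obtain ⟨K', hK'⟩ := hG' 2 (by norm_num) ⟨K, fun n hn b hb => by
      have := hK n hn b hb
      exact_mod_cast this⟩
    refine ⟨K', fun a ha => ?_⟩
    have := hK' a ha
    have e : (-(6 / 100) / 2 : ℝ) = -(3 / 100) := by norm_num
    rwa [e] at this
  · rintro β hβ ⟨K, hK⟩
    have hl2 : 0 < Real.log 2 := Real.log_pos (by norm_num)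
    have hl3 : 0 < Real.log 3 := Real.log_pos (by norm_num)
    rw [div_lt_iff₀ hl3] at hβ
    -- `κ / 2^k ≤ D (3^k - 1) ≤ K (3^k - 1)^(-β)`
    have hβ0 : 0 < β := by
      by_contra hcon
      push Not at hcon
      have : β * Real.log 3 ≤ 0 := mul_nonpos_of_nonpos_of_nonneg hcon hl3.le
      linarith
    have hrat : 1 < Real.exp (β * Real.log 3 - Real.log 2) := by
      rw [Real.one_lt_exp_iff]; linarith
    have hbound : ∀ k : ℕ, 1 ≤ k → Real.exp (β * Real.log 3 - Real.log 2) ^ k ≤ K * 2 ^ β / κ := by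
      intro k hk
      have h3k : (3 : ℝ) ≤ 3 ^ k := by
        calc (3 : ℝ) = 3 ^ 1 := by norm_num
          _ ≤ 3 ^ k := pow_le_pow_right₀ (by norm_num) hk
      have h3k' : 3 ≤ 3 ^ k := by exact_mod_cast h3k
      have hcast : ((3 ^ k - 1 : ℕ) : ℝ) = (3 : ℝ) ^ k - 1 := by
        rw [Nat.cast_sub (by omega)]; push_cast; ring
      have h1 := (hM k hk).trans (hK (3 ^ k - 1) (by omega))
      rw [hcast] at h1
      have hK0 : 0 < K := by
        by_contra hcon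
        push Not at hcon
        have h4 : 0 < ((3 : ℝ) ^ k - 1) ^ (-β) := Real.rpow_pos_of_pos (by linarith) _
        have h5 : K * ((3 : ℝ) ^ k - 1) ^ (-β) ≤ 0 := mul_nonpos_of_nonpos_of_nonneg hcon h4.le
        have h6 : 0 < κ / 2 ^ k := by positivity
        linarith
      have h4 : ((3 : ℝ) ^ k - 1) ^ (-β) ≤ ((3 : ℝ) ^ k / 2) ^ (-β) :=
        Real.rpow_le_rpow_of_nonpos (by positivity) (by linarith) (by linarith)
      have h5 : κ / 2 ^ k ≤ K * ((3 : ℝ) ^ k / 2) ^ (-β) := h1.trans (mul_le_mul_of_nonneg_left h4 hK0.le)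
      have h6 : ((3 : ℝ) ^ k / 2) ^ (-β) = 2 ^ β * Real.exp (-(β * Real.log 3) * k) := by
        rw [Real.div_rpow (by positivity) (by norm_num), div_eq_mul_inv, ← Real.rpow_neg (by norm_num),
          neg_neg, mul_comm]
        congr 1
        rw [← Real.rpow_natCast, ← Real.rpow_mul (by norm_num), Real.rpow_def_of_pos (by norm_num)]
        congr 1
        ring
      rw [h6] at h5
      have h7 : (2 : ℝ) ^ k = Real.exp (Real.log 2 * k) := by
        rw [← Real.rpow_natCast, Real.rpow_def_of_pos (by norm_num)]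
      rw [le_div_iff₀ hκ, ← Real.exp_nat_mul]
      rw [div_le_iff₀ (by positivity), h7] at h5
      have h8 : Real.exp (k * (β * Real.log 3 - Real.log 2)) *
          (Real.exp (-(β * Real.log 3) * k) * Real.exp (Real.log 2 * k)) = 1 := by
        rw [← Real.exp_add, ← Real.exp_add, Real.exp_eq_one_iff]
        ring
      have h9 := mul_le_mul_of_nonneg_left h5 (Real.exp_pos (k * (β * Real.log 3 - Real.log 2))).le
      calc Real.exp (k * (β * Real.log 3 - Real.log 2)) * κ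
          ≤ Real.exp (k * (β * Real.log 3 - Real.log 2)) *
            (K * (2 ^ β * Real.exp (-(β * Real.log 3) * k)) * Real.exp (Real.log 2 * k)) := h9
        _ = K * 2 ^ β * (Real.exp (k * (β * Real.log 3 - Real.log 2)) *
          (Real.exp (-(β * Real.log 3) * k) * Real.exp (Real.log 2 * k))) := by ring
        _ = K * 2 ^ β := by rw [h8, mul_one]
    obtain ⟨k, hk⟩ := pow_unbounded_of_one_lt (K * 2 ^ β / κ) hrat
    have h10 := hbound (k + 1) (by omega)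
    have h11 : Real.exp (β * Real.log 3 - Real.log 2) ^ k ≤
        Real.exp (β * Real.log 3 - Real.log 2) ^ (k + 1) := pow_le_pow_right₀ hrat.le (by omega)
    linarith
  · intro hfin
    rw [Metric.tendsto_atTop]
    intro ε hε
    obtain ⟨Y, hY1, hYε⟩ : ∃ Y : ℝ, 1 ≤ Y ∧ C * Y ^ (-(6 / 100) : ℝ) < ε := by
      have h1 : Tendsto (fun Y : ℝ => C * Y ^ (-(6 / 100) : ℝ)) atTop (𝓝 (C * 0)) :=
        (tendsto_rpow_neg_atTop (by norm_num : (0 : ℝ) < 6 / 100)).const_mul C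
      rw [mul_zero] at h1
      obtain ⟨Y, h2, h3⟩ := ((h1.eventually (gt_mem_nhds hε)).and (eventually_ge_atTop 1)).exists
      exact ⟨Y, h3, h2⟩
    have hch : ∀ n : ℕ, ∃ B : ℕ, 1 ≤ n → ∀ b ∈ traj n, b ≤ B := by
      intro n
      by_cases hn : 1 ≤ n
      · obtain ⟨B, hB'⟩ := hfin n hn
        exact ⟨⌊B⌋₊, fun _ b hb => Nat.le_floor (hB' b hb)⟩
      · exact ⟨0, fun h => absurd h hn⟩
    choose B hBn using hch
    refine ⟨(Finset.range (⌈Y⌉₊ + 1)).sup B + 1, fun a ha => ?_⟩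
    have h1 : D a ≤ C * Y ^ (-(6 / 100) : ℝ) := by
      apply hup a Y (by omega) hY1
      intro z hz hza
      by_contra hcon
      push Not at hcon
      have hzr : z ∈ Finset.range (⌈Y⌉₊ + 1) := by
        rw [Finset.mem_range]
        have h4 : (z : ℝ) ≤ ⌈Y⌉₊ := hcon.le.trans (Nat.le_ceil Y)
        have h5 : z ≤ ⌈Y⌉₊ := by exact_mod_cast h4
        omega
      have h2 := hBn z hz a hza
      have h3 := Finset.le_sup (f := B) hzr
      omega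
    rw [Real.dist_eq, sub_zero, abs_of_nonneg (h01 a).1]
    linarith
  · intro hlim n hn
    by_contra hcon
    push Not at hcon
    have hnR : (0 : ℝ) < n := by exact_mod_cast hn
    have hev : ∀ᶠ a in atTop, D a < κ / n := hlim.eventually (gt_mem_nhds (by positivity))
    obtain ⟨A, hA'⟩ := eventually_atTop.1 hev
    apply hcon (max A n)
    exact hB n A (fun a _ ha => hA' a (by exact_mod_cast ha.le)) n hn le_rfl

end Pool.Agent.Results.MP_0a5adf_nt.HittingDensities
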