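import Mathlib
import Pool.Agent.U307.LR.F
import Pool.Agent.Results.MP_0a5adf_nt.ExcursionsOfMersenneNumbers

set_option autoImplicit false

/-!
# Maximum excursions near the terms of linear recurrences

A sequence of integers is called smooth if, for some step `M`, its `k`-th differences with step `M` are
divisible by `4 ^ k`, for all `k`. The smooth sequences form a ring, which contains every linear
recurrence with odd last coefficient (like the Fibonacci numbers, all polynomials, all `b ^ n` with `b` odd)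
and every Newton series `∑ c_j n (n - 1) ... (n - j + 1)`. A smooth sequence is spread modulo powers of two
if and only if it is constant on no arithmetic progression. Hence almost all of its terms `x` have long
intervals around them on which the maximum excursion is constant, or at most `x n ^ κ`.
-/

namespace Pool.Agent.Results.MP_0a5adf_nt.LinearRecurrences

open Filter Topology

/-- The accelerated `3x+1` function. -/
def T (n : ℕ) : ℕ := if n % 2 = 0 then n / 2 else (3 * n + 1) / 2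

/-- The maximum excursion. -/
noncomputable def t (n : ℕ) : ℕ∞ := ⨆ k : ℕ, ((T^[k] n : ℕ) : ℕ∞)

/-- All the terms of the trajectory of `n` are at most `B`. -/
def Below (n : ℕ) (B : ℝ) : Prop := ∀ k : ℕ, ((T^[k] n : ℕ) : ℝ) ≤ B

/-- The sequence `x` is spread modulo powers of two: there is `δ > 0` such that for every `ε > 0` there
are `η > 0` and `N₀` such that, for `N ≥ N₀` and `2 ^ t ≤ N ^ δ`, at most `η 2 ^ t` classes modulo `2 ^ t`
contain together at most `ε N` of the integers `x n`, `1 ≤ n ≤ N`. -/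
def Spread (x : ℕ → ℤ) : Prop :=
  ∃ δ : ℝ, 0 < δ ∧ ∀ ε : ℝ, 0 < ε → ∃ η : ℝ, 0 < η ∧ ∃ N₀ : ℕ, ∀ N : ℕ, N₀ ≤ N →
    ∀ t : ℕ, (2 : ℝ) ^ t ≤ (N : ℝ) ^ δ → ∀ A : Finset ℤ, (A.card : ℝ) ≤ η * 2 ^ t →
      (({n | 1 ≤ n ∧ n ≤ N ∧ ∃ a ∈ A, x n ≡ a [ZMOD 2 ^ t]} : Set ℕ).ncard : ℝ) ≤ ε * N

/-- `P n` holds for almost all `n`, in the sense of natural density. -/
def AlmostAll (P : ℕ → Prop) : Prop :=
  Tendsto (fun N : ℕ => (({n | 1 ≤ n ∧ n ≤ N ∧ ¬ P n} : Set ℕ).ncard : ℝ) / N) atTop (𝓝 0)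

/-- The range: `W n = √ log n / (log log n) ^ 17`. -/
noncomputable def W (n : ℕ) : ℝ := √ (Real.log n) / (Real.log (Real.log n)) ^ 17

/-- The linear recurrence `u (n + d) = c 0 u (n) + ... + c (d - 1) u (n + d - 1)` with `c 0` odd. -/
def OddRec (u : ℕ → ℤ) : Prop :=
  ∃ (d : ℕ) (c : ℕ → ℤ), 1 ≤ d ∧ Odd (c 0) ∧ ∀ n, u (n + d) = ∑ i ∈ Finset.range d, c i * u (n + i)

/-- `u` is smooth: for some step `M ≥ 1`, `4 ^ k` divides all the `k`-th differences of `u` with step `M`,
for every `k`. -/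
def Smooth (u : ℕ → ℤ) : Prop :=
  ∃ M : ℕ, 1 ≤ M ∧ ∀ k n : ℕ,
    (4 : ℤ) ^ k ∣ ∑ j ∈ Finset.range (k + 1), (-1) ^ (k - j) * (k.choose j : ℤ) * u (n + j * M)

/-- `u` is constant on no arithmetic progression. -/
def NoConst (u : ℕ → ℤ) : Prop := ∀ a q : ℕ, 1 ≤ q → ∃ m, u (a + q * m) ≠ u a

open Pool.Agent.Results.MP_0a5adf_nt.ExcursionsOfMersenneNumbers in
theorem sp_iff (x : ℕ → ℤ) : Spread x ↔ Pool.Agent.Y967.CM.Spread x := spread_iff x

theorem AlmostAll.mono {P Q : ℕ → Prop} (h : AlmostAll P) (hPQ : ∀ n, P n → Q n) : AlmostAll Q :=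
  Pool.Agent.Results.MP_0a5adf_nt.ExcursionsOfMersenneNumbers.AlmostAll.mono h hPQ

theorem AlmostAll.and {P Q : ℕ → Prop} (h : AlmostAll P) (h' : AlmostAll Q) :
    AlmostAll (fun n => P n ∧ Q n) := by
  classical
  unfold AlmostAll at *
  have h3 := h.add h'
  rw [add_zero] at h3
  refine squeeze_zero (fun N => by positivity) (fun N => ?_) h3
  rw [← add_div]
  apply div_le_div_of_nonneg_right _ (Nat.cast_nonneg N)
  have h4 : ({n | 1 ≤ n ∧ n ≤ N ∧ ¬ (P n ∧ Q n)} : Set ℕ) ⊆
      {n | 1 ≤ n ∧ n ≤ N ∧ ¬ P n} ∪ {n | 1 ≤ n ∧ n ≤ N ∧ ¬ Q n} := by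
    rintro n ⟨h1, h2, h5⟩
    rw [not_and_or] at h5
    rcases h5 with h5 | h5
    · left; exact ⟨h1, h2, h5⟩
    · right; exact ⟨h1, h2, h5⟩
  have hfin : ∀ R : ℕ → Prop, ({n | 1 ≤ n ∧ n ≤ N ∧ R n} : Set ℕ).Finite := fun R =>
    (Set.finite_Icc 1 N).subset fun n hn => ⟨hn.1, hn.2.1⟩
  have h5 := (Set.ncard_le_ncard h4 ((hfin _).union (hfin _))).trans (Set.ncard_union_le _ _)
  exact_mod_cast h5

/-- (1) Every linear recurrence with odd last coefficient is smooth, and so is every Newton series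
`∑ c_j n (n - 1) ... (n - j + 1)` with integers `c_j`; sums and products of smooth sequences are smooth.
(2) A smooth sequence `u` is spread if and only if it is constant on no arithmetic progression, and then
`u (e n)` is spread for every spread sequence `e` of natural numbers.
Let the sequence of natural numbers `x` be smooth and constant on no arithmetic progression, let the
sequence of natural numbers `e` be spread, for example the sequence of the primes, and `κ > 0`.
(3) For almost all `n`, if the trajectory of a natural number `z` is at time `k` within distance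
`exp (W n)` of one of the numbers `3 ^ i x (e n)`, `i ≤ W n`, and its first `k` terms are at most
`3 ^ i x (e n) n ^ κ`, then `t z = t (x (e n))`, or all the terms of the trajectories of `z` and `x (e n)`
are at most `3 ^ i x (e n) n ^ κ`. (4) For almost all `n`, on the interval of the `z` with
`|z - x (e n)| ≤ exp (W n)` either the function `t` is constant, or `t z ≤ x (e n) n ^ κ` for all its `z`.
(5) For almost all `n`, with `m = x (e n)`, either all the Mersenne numbers `2 ^ (m + j) - 1`, `j ≤ W n`,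
have the same maximum excursion, or the maximum excursions of all of them are at most `3 ^ m n ^ κ`.
(6) The Fibonacci numbers are smooth and constant on no arithmetic progression. -/
theorem result :
    ((∀ u : ℕ → ℤ, OddRec u → Smooth u) ∧
      (∀ c : ℕ → ℤ, Smooth (fun n => ∑ j ∈ Finset.range (n + 1), c j * (n.descFactorial j : ℤ))) ∧
      (∀ u v : ℕ → ℤ, Smooth u → Smooth v → Smooth (fun n => u n + v n) ∧ Smooth (fun n => u n * v n))) ∧
    (∀ u : ℕ → ℤ, Smooth u → (Spread u ↔ NoConst u) ∧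
      ∀ e : ℕ → ℕ, NoConst u → Spread (fun n => (e n : ℤ)) → Spread (fun n => u (e n))) ∧
    (∀ x e : ℕ → ℕ, Smooth (fun n => (x n : ℤ)) → NoConst (fun n => (x n : ℤ)) →
      Spread (fun n => (e n : ℤ)) → ∀ κ : ℝ, 0 < κ →
      AlmostAll (fun n => ∀ z k i : ℕ, (i : ℝ) ≤ W n →
        |((T^[k] z : ℕ) : ℝ) - 3 ^ i * x (e n)| ≤ Real.exp (W n) →
        (∀ j, j < k → ((T^[j] z : ℕ) : ℝ) ≤ 3 ^ i * x (e n) * (n : ℝ) ^ κ) →
        t z = t (x (e n)) ∨
          (Below z (3 ^ i * x (e n) * (n : ℝ) ^ κ) ∧ Below (x (e n)) (3 ^ i * x (e n) * (n : ℝ) ^ κ))) ∧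
      AlmostAll (fun n =>
        (∀ z : ℕ, |(z : ℝ) - x (e n)| ≤ Real.exp (W n) → t z = t (x (e n))) ∨
        (∀ z : ℕ, |(z : ℝ) - x (e n)| ≤ Real.exp (W n) → Below z (x (e n) * (n : ℝ) ^ κ))) ∧
      AlmostAll (fun n =>
        (∀ j : ℕ, (j : ℝ) ≤ W n → t (2 ^ (x (e n) + j) - 1) = t (2 ^ x (e n) - 1)) ∨
        (∀ j : ℕ, (j : ℝ) ≤ W n → Below (2 ^ (x (e n) + j) - 1) (3 ^ x (e n) * (n : ℝ) ^ κ)))) ∧
    (Smooth (fun n => (Nat.fib n : ℤ)) ∧ NoConst (fun n => (Nat.fib n : ℤ)) ∧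
      Spread (fun n => (n : ℤ)) ∧ Spread (fun n => ((Nat.nth Nat.Prime n : ℕ) : ℤ))) := by
  obtain ⟨⟨hid, hpr, -, -⟩, hH⟩ :=
    Pool.Agent.Results.MP_0a5adf_nt.ExcursionsOfMersenneNumbers.result
  have hcomp : ∀ u : ℕ → ℤ, Smooth u → ∀ e : ℕ → ℕ, NoConst u → Spread (fun n => (e n : ℤ)) →
      Spread (fun n => u (e n)) := fun u hu e hne he =>
    (sp_iff _).2 (Pool.Agent.U307.LR.Smooth.comp hu hne ((sp_iff _).1 he))
  refine ⟨⟨fun u hu => Pool.Agent.U307.LR.OddRec.smooth hu, fun c => Pool.Agent.U307.LR.newton_smooth c,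
    fun u v hu hv => ⟨Pool.Agent.U307.LR.Smooth.add hu hv, Pool.Agent.U307.LR.Smooth.mul hu hv⟩⟩,
    fun u hu => ⟨(sp_iff u).trans (Pool.Agent.U307.LR.Smooth.spread_iff hu), fun e hne he => hcomp u hu e hne he⟩,
    fun x e hx hne he κ hκ => ?_, Pool.Agent.U307.LR.fib_odd.smooth, Pool.Agent.U307.LR.fib_noConst, hid, hpr⟩
  have hs : Spread (fun n => ((x (e n) : ℕ) : ℤ)) := hcomp _ hx e hne he
  obtain ⟨hH1, hH2⟩ := hH κ hκ
  have h1 : AlmostAll (fun n => ∀ z k i : ℕ, (i : ℝ) ≤ W n →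
        |((T^[k] z : ℕ) : ℝ) - 3 ^ i * x (e n)| ≤ Real.exp (W n) →
        (∀ j, j < k → ((T^[j] z : ℕ) : ℝ) ≤ 3 ^ i * x (e n) * (n : ℝ) ^ κ) →
        t z = t (x (e n)) ∨
          (Below z (3 ^ i * x (e n) * (n : ℝ) ^ κ) ∧ Below (x (e n)) (3 ^ i * x (e n) * (n : ℝ) ^ κ))) :=
    hH1 (fun n => x (e n)) hs
  have hW : AlmostAll (fun n => 0 ≤ W n) := by
    have h := Pool.Agent.Results.MP_0a5adf_nt.ExcursionsOfMersenneNumbers.dat_all (x := fun n => n) hid one_pos
    exact AlmostAll.mono h fun n hn => hn.2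
  have heq : ∀ {a b : ℕ} {B : ℝ}, t a = t b → Below a B → Below b B := by
    intro a b B hab hb k
    by_contra hcon
    rw [not_le] at hcon
    have g1 : ((T^[k] b : ℕ) : ℕ∞) ≤ t a := by
      rw [hab]
      exact le_iSup (fun k : ℕ => ((T^[k] b : ℕ) : ℕ∞)) k
    have g2 : t a ≤ ((T^[k] b - 1 : ℕ) : ℕ∞) := by
      refine iSup_le fun l => ?_
      have g3 : ((T^[l] a : ℕ) : ℝ) < (T^[k] b : ℕ) := (hb l).trans_lt hcon
      have g4 : T^[l] a < T^[k] b := by exact_mod_cast g3
      exact_mod_cast (by omega : T^[l] a ≤ T^[k] b - 1)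
    have g5 : T^[k] b ≤ T^[k] b - 1 := by exact_mod_cast g1.trans g2
    have g6 : 0 < T^[k] b := by
      by_contra h0
      have h0' : T^[k] b = 0 := by omega
      have := hb 0
      rw [h0'] at hcon
      push_cast at hcon
      have h7 : (0 : ℝ) ≤ ((T^[0] a : ℕ) : ℝ) := Nat.cast_nonneg _
      linarith
    omega
  refine ⟨h1, ?_, ?_⟩
  · refine AlmostAll.mono (AlmostAll.and hW h1) ?_
    rintro n ⟨hw, g1⟩
    have g2 : ∀ z : ℕ, |(z : ℝ) - x (e n)| ≤ Real.exp (W n) → t z = t (x (e n)) ∨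
        (Below z (x (e n) * (n : ℝ) ^ κ) ∧ Below (x (e n)) (x (e n) * (n : ℝ) ^ κ)) := by
      intro z hz
      have g3 := g1 z 0 0 (by push_cast; exact hw) (by
        rw [Function.iterate_zero, id_eq, pow_zero, one_mul]; exact hz) (fun j hj => absurd hj (Nat.not_lt_zero j))
      rwa [pow_zero, one_mul] at g3
    by_cases hb : Below (x (e n)) (x (e n) * (n : ℝ) ^ κ)
    · right
      intro z hz
      rcases g2 z hz with h | h
      · exact heq h.symm hb
      · exact h.1
    · left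
      intro z hz
      rcases g2 z hz with h | h
      · exact h
      · exact absurd h.2 hb
  · refine AlmostAll.mono (hH2 (fun n => x (e n)) hs) ?_
    intro n hn
    by_cases hb : Below (2 ^ x (e n) - 1) (3 ^ x (e n) * (n : ℝ) ^ κ)
    · right
      intro j hj
      rcases hn (x (e n)) j rfl hj with h | h
      · exact heq (a := 2 ^ x (e n) - 1) (b := 2 ^ (x (e n) + j) - 1) h.symm hb
      · exact h.1
    · left
      intro j hj
      rcases hn (x (e n)) j rfl hj with h | h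
      · exact h
      · exact absurd h.2 hb

end Pool.Agent.Results.MP_0a5adf_nt.LinearRecurrences
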